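import Pool.Agent.L0h45.AV.Stm

/-!
# AV/PAR: a real tuple with `chA > 0` has a zero in the upper half plane
-/

set_option autoImplicit false
set_option linter.all false
set_option maxHeartbeats 1000000

namespace Pool.Agent.L0h96.AV

open Pool.Agent.N874.PP (Tup chA chB gq tau Ev)
open Pool.Agent.L0h45.AV

theorem root4 (a b c d e : ℝ) (ha : a ≠ 0) :
    ∃ z : ℂ, (a : ℂ) * z ^ 4 + b * z ^ 3 + c * z ^ 2 + d * z + e = 0 := by
  have ha' : (a : ℂ) ≠ 0 := by exact_mod_cast ha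
  let p : Polynomial ℂ := Polynomial.C (a : ℂ) * Polynomial.X ^ 4 +
    Polynomial.C (b : ℂ) * Polynomial.X ^ 3 + Polynomial.C (c : ℂ) * Polynomial.X ^ 2 +
    Polynomial.C (d : ℂ) * Polynomial.X + Polynomial.C (e : ℂ)
  have hp : p.degree = (4 : ℕ) := by
    simp only [p]
    compute_degree!
  obtain ⟨z, hz⟩ := IsAlgClosed.exists_root p (by rw [hp]; exact_mod_cast (by norm_num : (4:ℕ) ≠ 0))
  refine ⟨z, ?_⟩
  simpa [p, Polynomial.IsRoot.def] using hz

theorem root3 (a b c d : ℝ) (ha : a ≠ 0) :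
    ∃ z : ℂ, (a : ℂ) * z ^ 3 + b * z ^ 2 + c * z + d = 0 := by
  have ha' : (a : ℂ) ≠ 0 := by exact_mod_cast ha
  let p : Polynomial ℂ := Polynomial.C (a : ℂ) * Polynomial.X ^ 3 +
    Polynomial.C (b : ℂ) * Polynomial.X ^ 2 + Polynomial.C (c : ℂ) * Polynomial.X +
    Polynomial.C (d : ℂ)
  have hp : p.degree = (3 : ℕ) := by
    simp only [p]
    compute_degree!
  obtain ⟨z, hz⟩ := IsAlgClosed.exists_root p (by rw [hp]; exact_mod_cast (by norm_num : (3:ℕ) ≠ 0))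
  refine ⟨z, ?_⟩
  simpa [p, Polynomial.IsRoot.def] using hz

theorem root2 (a b c : ℝ) (ha : a ≠ 0) :
    ∃ z : ℂ, (a : ℂ) * z ^ 2 + b * z + c = 0 := by
  have ha' : (a : ℂ) ≠ 0 := by exact_mod_cast ha
  let p : Polynomial ℂ := Polynomial.C (a : ℂ) * Polynomial.X ^ 2 +
    Polynomial.C (b : ℂ) * Polynomial.X + Polynomial.C (c : ℂ)
  have hp : p.degree = (2 : ℕ) := by
    simp only [p]
    compute_degree!
  obtain ⟨z, hz⟩ := IsAlgClosed.exists_root p (by rw [hp]; exact_mod_cast (by norm_num : (2:ℕ) ≠ 0))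
  refine ⟨z, ?_⟩
  simpa [p, Polynomial.IsRoot.def] using hz

/-- a real quartic with negative invariant `I` has a zero which is not real -/
theorem nonreal (a b c d e : ℝ) (ha : a ≠ 0) (hI : 12 * a * e - 3 * b * d + c ^ 2 < 0) :
    ∃ z : ℂ, z.im ≠ 0 ∧ (a : ℂ) * z ^ 4 + b * z ^ 3 + c * z ^ 2 + d * z + e = 0 := by
  obtain ⟨z1, h1⟩ := root4 a b c d e ha
  by_cases i1 : z1.im = 0
  swap
  · exact ⟨z1, i1, h1⟩
  obtain ⟨r1, rfl⟩ : ∃ r : ℝ, z1 = (r : ℂ) := ⟨z1.re, Complex.ext rfl (by simpa using i1)⟩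
  have e1 : a * r1 ^ 4 + b * r1 ^ 3 + c * r1 ^ 2 + d * r1 + e = 0 := by exact_mod_cast h1
  -- the cubic factor
  obtain ⟨z2, h2⟩ := root3 a (b + a * r1) (c + (b + a * r1) * r1)
    (d + (c + (b + a * r1) * r1) * r1) ha
  have f2 : (a : ℂ) * z2 ^ 4 + b * z2 ^ 3 + c * z2 ^ 2 + d * z2 + e = 0 := by
    have e1' : (e : ℂ) = -((a : ℂ) * r1 ^ 4 + b * r1 ^ 3 + c * r1 ^ 2 + d * r1) := by
      rw [eq_neg_iff_add_eq_zero]
      rw [add_comm]
      exact_mod_cast e1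
    push_cast at h2
    rw [e1']
    linear_combination (z2 - r1) * h2
  by_cases i2 : z2.im = 0
  swap
  · exact ⟨z2, i2, f2⟩
  obtain ⟨r2, rfl⟩ : ∃ r : ℝ, z2 = (r : ℂ) := ⟨z2.re, Complex.ext rfl (by simpa using i2)⟩
  have e2 : a * r2 ^ 3 + (b + a * r1) * r2 ^ 2 + (c + (b + a * r1) * r1) * r2 +
      (d + (c + (b + a * r1) * r1) * r1) = 0 := by exact_mod_cast h2
  -- the quadratic factor
  obtain ⟨z3, h3⟩ := root2 a (b + a * r1 + a * r2)
    (c + (b + a * r1) * r1 + (b + a * r1 + a * r2) * r2) ha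
  have f3 : (a : ℂ) * z3 ^ 4 + b * z3 ^ 3 + c * z3 ^ 2 + d * z3 + e = 0 := by
    have e1' : (e : ℂ) = -((a : ℂ) * r1 ^ 4 + b * r1 ^ 3 + c * r1 ^ 2 + d * r1) := by
      rw [eq_neg_iff_add_eq_zero]
      rw [add_comm]
      exact_mod_cast e1
    have e2' : (d : ℂ) = -((a : ℂ) * r2 ^ 3 + (b + a * r1) * r2 ^ 2 +
        (c + (b + a * r1) * r1) * r2 + (c + (b + a * r1) * r1) * r1) := by
      rw [eq_neg_iff_add_eq_zero]
      have : ((a * r2 ^ 3 + (b + a * r1) * r2 ^ 2 + (c + (b + a * r1) * r1) * r2 +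
        (d + (c + (b + a * r1) * r1) * r1) : ℝ) : ℂ) = 0 := by exact_mod_cast e2
      push_cast at this
      linear_combination this
    push_cast at h3
    rw [e1', e2']
    linear_combination (z3 - r1) * (z3 - r2) * h3
  by_cases i3 : z3.im = 0
  swap
  · exact ⟨z3, i3, f3⟩
  obtain ⟨r3, rfl⟩ : ∃ r : ℝ, z3 = (r : ℂ) := ⟨z3.re, Complex.ext rfl (by simpa using i3)⟩
  have e3 : a * r3 ^ 2 + (b + a * r1 + a * r2) * r3 +
      (c + (b + a * r1) * r1 + (b + a * r1 + a * r2) * r2) = 0 := by exact_mod_cast h3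
  -- all zeros are real
  exfalso
  obtain ⟨r4, h4⟩ : ∃ r4 : ℝ, b = -a * (r1 + r2 + r3 + r4) :=
    ⟨-b / a - r1 - r2 - r3, by field_simp; ring⟩
  have hc : c = a * (r1 * r2 + r1 * r3 + r1 * r4 + r2 * r3 + r2 * r4 + r3 * r4) := by
    rw [h4] at e3
    linear_combination e3
  have hd : d = -a * (r1 * r2 * r3 + r1 * r2 * r4 + r1 * r3 * r4 + r2 * r3 * r4) := by
    rw [h4, hc] at e2
    linear_combination e2
  have he : e = a * (r1 * r2 * r3 * r4) := by
    rw [h4, hc, hd] at e1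
    linear_combination e1
  have hII : 12 * a * e - 3 * b * d + c ^ 2 = a ^ 2 / 2 * (((r1 - r2) * (r3 - r4)) ^ 2 +
      ((r1 - r3) * (r2 - r4)) ^ 2 + ((r1 - r4) * (r2 - r3)) ^ 2) := by
    rw [h4, hc, hd, he]
    ring
  rw [hII] at hI
  have : 0 ≤ a ^ 2 / 2 * (((r1 - r2) * (r3 - r4)) ^ 2 +
      ((r1 - r3) * (r2 - r4)) ^ 2 + ((r1 - r4) * (r2 - r3)) ^ 2) := by positivity
  linarith

theorem t_PAR : S_PAR := by
  intro B hx hA
  obtain ⟨x, y, c, z, w⟩ := B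
  simp only [chA] at hA
  simp only at hx
  obtain ⟨ζ, hi, hζ⟩ := nonreal (4 * x) (-8 * y) (-12 * c) (4 * z) w (by simpa using hx)
    (by nlinarith)
  obtain ⟨p, q⟩ := ζ
  simp only at hi
  have hre := congrArg Complex.re hζ
  have him := congrArg Complex.im hζ
  simp only [pow_succ, pow_zero, one_mul, Complex.add_re, Complex.add_im, Complex.mul_re,
    Complex.mul_im, Complex.ofReal_re, Complex.ofReal_im, Complex.zero_re, Complex.zero_im] at hre him
  have him' : (16 * x * p ^ 3 - 24 * y * p ^ 2 - 24 * c * p + 4 * z) =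
      (16 * x * p - 8 * y) * q ^ 2 := by
    have h : q * ((16 * x * p ^ 3 - 24 * y * p ^ 2 - 24 * c * p + 4 * z) -
      (16 * x * p - 8 * y) * q ^ 2) = 0 := by linear_combination him
    rcases mul_eq_zero.1 h with h | h
    · exact absurd h hi
    · linarith
  have hre' : 4 * x * p ^ 4 - 8 * y * p ^ 3 - 12 * c * p ^ 2 + 4 * z * p + w =
      (24 * x * p ^ 2 - 24 * y * p - 12 * c) * q ^ 2 - 4 * x * q ^ 4 := by
    linear_combination hre
  have hq2 : |q| ^ 2 = q ^ 2 := sq_abs q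
  have hq4 : |q| ^ 4 = q ^ 4 := by
    have : |q| ^ 4 = (|q| ^ 2) ^ 2 := by ring
    rw [this, hq2]
    ring
  obtain ⟨v, hv⟩ : ∃ v : ℝ, v = |q| := ⟨_, rfl⟩
  have hv0 : 0 < v := by rw [hv]; exact abs_pos.2 hi
  rw [← hq2, ← hv] at him'
  rw [← hq2, ← hq4, ← hv] at hre'
  have hvn : v ≠ 0 := hv0.ne'
  refine ⟨p, v, 4 * x * p ^ 2 - 4 * y * p - 2 * c,
    4 * x * v ^ 2 - 3 * (4 * x * p ^ 2 - 4 * y * p - 2 * c), v ^ 2 * (8 * x * p - 4 * y) / v, hv0, ?_⟩
  unfold Bp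
  ext
  · simp only
    field_simp
    ring
  · simp only
    field_simp
    ring
  · simp only
    field_simp
    ring
  · simp only
    field_simp
    linear_combination (v ^ 2 / 2) * him'
  · simp only
    field_simp
    linear_combination v ^ 2 * hre' - v ^ 2 * p * him'

end Pool.Agent.L0h96.AV
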